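import Pool.Agent.K7.H50.RJ.Non

set_option autoImplicit false

/-!
# Online scheduling with rejection on three machines: the preemptive model

The algorithm `alg` of `Pool.Agent.K7.H50.RJ` never splits a job. Run in the preemptive model, it
is `1.99`-competitive against every feasible preemptive schedule, because such a schedule with
makespan `T` accepts only jobs of length at most `T`, of total length at most `3 T`.
-/

namespace Pool.Agent.U396.RJ
open Finset Pool.Agent.K7.H50.RJ

/-- Intervals contained in `[0, T]` and pairwise disjoint have total length at most `T`. -/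
theorem packing {ι : Type} (s : Finset ι) (a b : ι → ℝ) (T : ℝ)
    (h0 : ∀ i ∈ s, 0 ≤ a i) (h1 : ∀ i ∈ s, a i < b i) (h2 : ∀ i ∈ s, b i ≤ T) (hT : 0 ≤ T)
    (hd : ∀ i ∈ s, ∀ j ∈ s, i ≠ j → b i ≤ a j ∨ b j ≤ a i) :
    ∑ i ∈ s, (b i - a i) ≤ T := by
  classical
  have hdis : Set.PairwiseDisjoint (↑s) (fun i => Set.Ioc (a i) (b i)) := by
    intro i hi j hj hij
    rw [Function.onFun, Set.disjoint_left]
    intro x hx hx'
    rcases hd i hi j hj hij with h | h
    · exact absurd (lt_of_le_of_lt h hx'.1) (not_lt.2 hx.2)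
    · exact absurd (lt_of_le_of_lt h hx.1) (not_lt.2 hx'.2)
  have hm := MeasureTheory.measure_biUnion_finset (μ := MeasureTheory.volume) hdis
    (fun i _ => measurableSet_Ioc)
  have hsub : (⋃ i ∈ s, Set.Ioc (a i) (b i)) ⊆ Set.Ioc 0 T := by
    intro x hx
    simp only [Set.mem_iUnion] at hx
    obtain ⟨i, hi, hx⟩ := hx
    exact ⟨lt_of_le_of_lt (h0 i hi) hx.1, hx.2.trans (h2 i hi)⟩
  have hle := MeasureTheory.measure_mono (μ := MeasureTheory.volume) hsub
  rw [hm, Real.volume_Ioc, sub_zero] at hle
  simp_rw [Real.volume_Ioc] at hle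
  rw [← ENNReal.ofReal_sum_of_nonneg (fun i hi => by linarith [h1 i hi])] at hle
  exact (ENNReal.ofReal_le_ofReal_iff hT).1 hle

/-- The slots of job `k` (none if it is rejected). -/
def sl (S : ℕ → Option (Finset Slot)) (k : ℕ) : Finset Slot := (S k).getD ∅

variable (J : ℕ → Job)

theorem sl_some {S : ℕ → Option (Finset Slot)} {k : ℕ} {s : Slot} (h : s ∈ sl S k) :
    S k = some (sl S k) := by
  unfold sl at *
  rcases h1 : S k with _ | σ
  · rw [h1] at h; simp at h
  · rfl

/-- The makespan is nonnegative and bounds the ends of all slots. -/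
theorem makespan_spec (n : ℕ) (S : ℕ → Option (Finset Slot)) :
    0 ≤ makespan n S ∧ ∀ k < n, ∀ s ∈ sl S k, s.2.2 ≤ makespan n S := by
  classical
  have hne : {T : ℝ | 0 ≤ T ∧ ∀ k < n, ∀ σ, S k = some σ → ∀ s ∈ σ, s.2.2 ≤ T}.Nonempty := by
    refine ⟨∑ k ∈ range n, ∑ s ∈ sl S k, |s.2.2|, ?_, ?_⟩
    · exact sum_nonneg fun k _ => sum_nonneg fun s _ => abs_nonneg _
    · intro k hk σ hσ s hs
      have hs' : s ∈ sl S k := by unfold sl; rw [hσ]; exact hs
      calc s.2.2 ≤ |s.2.2| := le_abs_self _
        _ ≤ ∑ s ∈ sl S k, |s.2.2| :=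
            single_le_sum (f := fun s : Slot => |s.2.2|) (fun _ _ => abs_nonneg _) hs'
        _ ≤ _ := single_le_sum (f := fun k => ∑ s ∈ sl S k, |s.2.2|)
            (fun _ _ => sum_nonneg fun _ _ => abs_nonneg _) (mem_range.2 hk)
  constructor
  · exact le_csInf hne fun T hT => hT.1
  · intro k hk s hs
    exact le_csInf hne fun T hT => hT.2 k hk _ (sl_some hs) s hs

/-- The makespan is at most every bound. -/
theorem makespan_le (n : ℕ) (S : ℕ → Option (Finset Slot)) (M : ℝ) (hM : 0 ≤ M)
    (h : ∀ k < n, ∀ σ, S k = some σ → ∀ s ∈ σ, s.2.2 ≤ M) : makespan n S ≤ M :=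
  csInf_le ⟨0, fun _ hT => hT.1⟩ ⟨hM, h⟩

variable {J}

/-- In a feasible schedule an accepted job is no longer than the makespan. -/
theorem job_le {n : ℕ} {S : ℕ → Option (Finset Slot)} (hS : Feasible J n S) (k : ℕ) (hk : k < n)
    (hO : (S k).isNone = false) : (J k).t ≤ makespan n S := by
  rcases h : S k with _ | σ
  · rw [h] at hO; simp at hO
  · have hsl : sl S k = σ := by unfold sl; rw [h]; rfl
    rw [← hS.total k hk σ h]
    have hsp := makespan_spec n S
    refine packing σ (fun s => s.2.1) (fun s => s.2.2) _ (fun s hs => (hS.slot k hk σ h s hs).1)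
      (fun s hs => (hS.slot k hk σ h s hs).2) (fun s hs => hsp.2 k hk s (hsl ▸ hs)) hsp.1 ?_
    intro s hs s' hs' hne
    exact hS.apart k hk σ h s hs s' hs' hne

/-- On each machine the slots fit in the time interval `[0, T]`. -/
theorem machine_le {n : ℕ} {S : ℕ → Option (Finset Slot)} (hS : Feasible J n S) (i : Fin 3) :
    ∑ k ∈ range n, ∑ s ∈ (sl S k).filter (fun s => s.1 = i), (s.2.2 - s.2.1) ≤ makespan n S := by
  classical
  have hsp := makespan_spec n S
  rw [sum_sigma' (range n) (fun k => (sl S k).filter (fun s => s.1 = i))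
    (fun _ s => s.2.2 - s.2.1)]
  refine packing _ (fun x : (_ : ℕ) × Slot => x.2.2.1) (fun x => x.2.2.2) _ ?_ ?_ ?_ hsp.1 ?_
  · rintro ⟨k, s⟩ hx
    simp only [mem_sigma, mem_range, mem_filter] at hx
    exact (hS.slot k hx.1 _ (sl_some hx.2.1) s hx.2.1).1
  · rintro ⟨k, s⟩ hx
    simp only [mem_sigma, mem_range, mem_filter] at hx
    exact (hS.slot k hx.1 _ (sl_some hx.2.1) s hx.2.1).2
  · rintro ⟨k, s⟩ hx
    simp only [mem_sigma, mem_range, mem_filter] at hx
    exact hsp.2 k hx.1 s hx.2.1
  · rintro ⟨k, s⟩ hx ⟨k', s'⟩ hx' hne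
    simp only [mem_sigma, mem_range, mem_filter] at hx hx'
    by_cases hkk : k = k'
    · subst hkk
      have hss : s ≠ s' := fun h => hne (by rw [h])
      exact hS.apart k hx.1 _ (sl_some hx.2.1) s hx.2.1 s' hx'.2.1 hss
    · exact hS.machine k hx.1 k' hx'.1 hkk _ _ (sl_some hx.2.1) (sl_some hx'.2.1) s hx.2.1 s'
        hx'.2.1 (hx.2.2.trans hx'.2.2.symm)

/-- The accepted jobs of a feasible schedule have total length at most three times the
makespan. -/
theorem total_le {n : ℕ} {S : ℕ → Option (Finset Slot)} (hS : Feasible J n S) :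
    sm n (fun k => (S k).isNone = false) (fun k => (J k).t) ≤ 3 * makespan n S := by
  classical
  have h1 : sm n (fun k => (S k).isNone = false) (fun k => (J k).t) =
      ∑ k ∈ range n, ∑ i : Fin 3, ∑ s ∈ (sl S k).filter (fun s => s.1 = i), (s.2.2 - s.2.1) := by
    unfold sm
    refine sum_congr rfl fun k hk => ?_
    rw [sum_fiberwise (sl S k) (fun s : Slot => s.1) (fun s => s.2.2 - s.2.1)]
    rcases h : S k with _ | σ
    · simp [sl, h]
    · have hsl : sl S k = σ := by unfold sl; rw [h]; rfl
      rw [hsl, hS.total k (mem_range.1 hk) σ h]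
      exact if_pos (by show (S k).isNone = false; rw [h]; rfl)
  rw [h1, sum_comm]
  have h2 : ∀ i : Fin 3, ∑ k ∈ range n, ∑ s ∈ (sl S k).filter (fun s => s.1 = i),
      (s.2.2 - s.2.1) ≤ makespan n S := machine_le hS
  calc _ ≤ ∑ _i : Fin 3, makespan n S := sum_le_sum fun i _ => h2 i
    _ = 3 * makespan n S := by simp

/-! ## The algorithm -/

/-- The algorithm `alg`, as an algorithm for the preemptive model: an accepted job gets one slot,
on a least loaded machine, starting at the load of this machine. -/
noncomputable def algP (l : List Job) : Option (Finset Slot) :=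
  match l.getLast? with
  | none => none
  | some j => (dec (run l.dropLast) j).map fun i =>
      {(i, (run l.dropLast).L i, (run l.dropLast).L i + j.t)}

variable (J)

theorem algP_dec (k : ℕ) : decisions algP J k =
    (decisions alg J k).map fun i => {(i, (S J k).L i, (S J k).L i + (J k).t)} := by
  rw [alg_dec]
  unfold decisions algP S
  rw [List.range_succ, List.map_append]
  simp

theorem algP_some (k : ℕ) (σ : Finset Slot) (h : decisions algP J k = some σ) :
    ∃ i, decisions alg J k = some i ∧ σ = {(i, (S J k).L i, (S J k).L i + (J k).t)} := by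
  rw [algP_dec] at h
  rcases h1 : decisions alg J k with _ | i
  · rw [h1] at h; simp at h
  · rw [h1] at h
    refine ⟨i, rfl, ?_⟩
    simpa using h.symm

theorem L_step (k : ℕ) (i : Fin 3) (h : decisions alg J k = some i) :
    (S J (k + 1)).L i = (S J k).L i + (J k).t := by
  rw [S_L, S_L, load, sum_range_succ, ← load, if_pos h]

theorem L_mono (i : Fin 3) {k l : ℕ} (h : k ≤ l) : (S J k).L i ≤ (S J l).L i := by
  rw [S_L, S_L, load, load]
  refine sum_le_sum_of_subset_of_nonneg (range_mono h) fun m _ _ => ?_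
  have := (J m).t_pos
  split_ifs <;> linarith

theorem feasible_algP (n : ℕ) : Feasible J n (decisions algP J) where
  slot := by
    intro k _ σ hσ s hs
    obtain ⟨i, -, rfl⟩ := algP_some J k σ hσ
    rw [mem_singleton] at hs
    subst hs
    have h0 : 0 ≤ (S J k).L i := by rw [S_L]; exact load_nonneg J k _ i
    have := (J k).t_pos
    exact ⟨h0, by simp only; linarith⟩
  apart := by
    intro k _ σ hσ s hs s' hs' hne
    obtain ⟨i, -, rfl⟩ := algP_some J k σ hσ
    rw [mem_singleton] at hs hs'
    exact absurd (hs.trans hs'.symm) hne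
  total := by
    intro k _ σ hσ
    obtain ⟨i, -, rfl⟩ := algP_some J k σ hσ
    simp
  machine := by
    have key : ∀ k k' : ℕ, k < k' → ∀ σ σ', decisions algP J k = some σ →
        decisions algP J k' = some σ' → ∀ s ∈ σ, ∀ s' ∈ σ', s.1 = s'.1 → s.2.2 ≤ s'.2.1 := by
      intro k k' hkk σ σ' hσ hσ' s hs s' hs' hm
      obtain ⟨i, hi, rfl⟩ := algP_some J k σ hσ
      obtain ⟨i', -, rfl⟩ := algP_some J k' σ' hσ'
      rw [mem_singleton] at hs hs'
      subst hs hs'
      simp only at hm ⊢
      subst hm
      rw [← L_step J k i hi]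
      exact L_mono J i hkk
    intro k _ k' _ hne σ σ' hσ hσ' s hs s' hs' hm
    rcases Nat.lt_or_gt_of_ne hne with h | h
    · exact Or.inl (key k k' h σ σ' hσ hσ' s hs s' hs' hm)
    · exact Or.inr (key k' k h σ' σ hσ' hσ s' hs' s hs hm.symm)

theorem penalty_algP (n : ℕ) : penalty J n (decisions algP J) = (S J n).P := by
  rw [S_P, penalty, penalty]
  refine sum_congr rfl fun k _ => ?_
  rw [algP_dec]
  rcases decisions alg J k with _ | i <;> simp

/-- In the preemptive model, `algP` is `1.99`-competitive. -/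
theorem competitive_algP : CompetitiveP algP (199 / 100) := by
  intro J n
  refine ⟨feasible_algP J n, ?_⟩
  set M := Finset.univ.sup' Finset.univ_nonempty (S J n).L with hM
  have hLM : ∀ i, (S J n).L i ≤ M := fun i => Finset.le_sup' (S J n).L (Finset.mem_univ i)
  have hM0 : 0 ≤ M := by
    refine le_trans ?_ (hLM 0)
    rw [S_L]; exact load_nonneg J n _ 0
  have hmk : makespan n (decisions algP J) ≤ M := by
    refine makespan_le n _ M hM0 ?_
    intro k hk σ hσ s hs
    obtain ⟨i, hi, rfl⟩ := algP_some J k σ hσ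
    rw [mem_singleton] at hs
    subst hs
    simp only
    rw [← L_step J k i hi]
    exact (L_mono J i hk).trans (hLM i)
  have key : ∀ d : {d : ℕ → Option (Finset Slot) // Feasible J n d},
      costP J n (decisions algP J) ≤ (199 / 100) * costP J n d.1 := by
    rintro ⟨d, hd⟩
    have hc : ∀ i, (S J n).L i + (S J n).P ≤
        (199 / 100) * (makespan n d + penalty J n d) := by
      intro i
      rw [penalty_sm]
      exact core J (fun k => (d k).isNone = false) n (makespan n d) (makespan_spec n d).1
        (fun k hk hO => job_le hd k hk hO) (total_le hd) i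
    have hMc : M ≤ (199 / 100) * (makespan n d + penalty J n d) - (S J n).P :=
      Finset.sup'_le _ _ fun i _ => by linarith [hc i]
    show makespan n (decisions algP J) + penalty J n (decisions algP J) ≤
      (199 / 100) * (makespan n d + penalty J n d)
    rw [penalty_algP]
    linarith
  unfold OPTP
  have : Nonempty {d : ℕ → Option (Finset Slot) // Feasible J n d} := ⟨⟨_, feasible_algP J n⟩⟩
  have h1 : (100 / 199) * costP J n (decisions algP J) ≤
      ⨅ d : {d : ℕ → Option (Finset Slot) // Feasible J n d}, costP J n d.1 := by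
    refine le_ciInf fun d => ?_
    linarith [key d]
  linarith

end Pool.Agent.U396.RJ
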